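import Mathlib

set_option autoImplicit false

namespace Pool.Agent.Results.MP_24e294_lc.Unbounded

inductive Let | a | b | c
  deriving DecidableEq

open Let

/-- Number of occurrences of `u` as a scattered subword of `w`. -/
def occ (u w : List Let) : ℕ := w.sublists'.count u

/-- The pairs of `R`. -/
inductive R : List Let → List Let → Prop
  | ac : R [a, c] [c, a]
  | ab (x : List Let) : R ([a, b] ++ x ++ [b, a]) ([b, a] ++ x ++ [a, b])
  | bc (x : List Let) : R ([b, c] ++ x ++ [c, b]) ([c, b] ++ x ++ [b, c])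

/-- A direct step. -/
def Step (w w' : List Let) : Prop :=
  ∃ x y y' z, (R y y' ∨ R y' y) ∧ w = x ++ y ++ z ∧ w' = x ++ y' ++ z

/-- `w'` is reached from `w` in exactly `n` direct steps. -/
inductive StepN : ℕ → List Let → List Let → Prop
  | refl (w : List Let) : StepN 0 w w
  | step {n : ℕ} {u v w : List Let} : Step u v → StepN n v w → StepN (n + 1) u w

def Reach (w w' : List Let) : Prop := ∃ n, StepN n w w'

noncomputable def dist (w w' : List Let) : ℕ := sInf {n | StepN n w w'}

def PRel (w w' : List Let) : Prop := Reach w w' ∧ occ [a, b, c] w = occ [a, b, c] w'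

def Irred (w w' : List Let) : Prop :=
  w ≠ w' ∧ PRel w w' ∧
    ¬ ∃ w'', w'' ≠ w ∧ w'' ≠ w' ∧ PRel w w'' ∧ PRel w'' w' ∧ dist w w'' + dist w'' w' = dist w w'

def Expressible (n : ℕ) (w w' : List Let) : Prop :=
  Relation.ReflTransGen (fun u v => Irred u v ∧ dist u v < n) w w'

lemma occ_nil (w : List Let) : occ [] w = 1 := by
  induction w with
  | nil => rfl
  | cons y w ih =>
    unfold occ at ih ⊢
    rw [List.sublists'_cons, List.count_append, ih, List.count_eq_zero.2 (by simp)]

@[simp] lemma occ_cons_nil (x : Let) (u : List Let) : occ (x :: u) [] = 0 := by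
  simp [occ]

lemma occ_cons (x y : Let) (u w : List Let) :
    occ (x :: u) (y :: w) = occ (x :: u) w + if x = y then occ u w else 0 := by
  unfold occ
  rw [List.sublists'_cons, List.count_append]
  congr 1
  split_ifs with h
  · subst h
    exact List.count_map_of_injective _ _ List.cons_injective _
  · rw [List.count_eq_zero]
    simp only [List.mem_map, not_exists, not_and]
    intro l _ hl
    exact h (List.cons.inj hl).1.symm

lemma occ1 (p : Let) (v w : List Let) : occ [p] (v ++ w) = occ [p] v + occ [p] w := by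
  induction v with
  | nil => simp
  | cons y v ih => simp only [List.cons_append, occ_cons, occ_nil, ih]; omega

lemma occ2 (p q : Let) (v w : List Let) :
    occ [p, q] (v ++ w) = occ [p, q] v + occ [p] v * occ [q] w + occ [p, q] w := by
  induction v with
  | nil => simp
  | cons y v ih =>
    simp only [List.cons_append, occ_cons, occ_nil, ih, occ1]
    split_ifs <;> ring

lemma occ3 (p q r : Let) (v w : List Let) :
    occ [p, q, r] (v ++ w) = occ [p, q, r] v + occ [p, q] v * occ [r] w +
      occ [p] v * occ [q, r] w + occ [p, q, r] w := by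
  induction v with
  | nil => simp
  | cons y v ih =>
    simp only [List.cons_append, occ_cons, occ_nil, ih, occ2]
    split_ifs <;> ring

lemma nob (w : List Let) (h : occ [b] w = 0) : ∀ u : List Let, b ∈ u → occ u w = 0 := by
  induction w with
  | nil =>
    intro u hu
    cases u with
    | nil => simp at hu
    | cons x u => simp
  | cons y w ih =>
    intro u hu
    rw [occ_cons, occ_nil] at h
    have h1 : occ [b] w = 0 := by omega
    have h2 : b ≠ y := by intro e; rw [if_pos e] at h; omega
    cases u with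
    | nil => simp at hu
    | cons x u =>
      rw [occ_cons, ih h1 _ hu]
      split_ifs with e
      · rcases List.mem_cons.1 hu with e' | e'
        · exact absurd (e'.trans e) h2
        · simp [ih h1 _ e']
      · rfl

lemma split_b (w : List Let) (k : ℕ) (h : occ [b] w = k + 1) :
    ∃ u t, w = u ++ [b] ++ t ∧ occ [b] u = 0 ∧ occ [b] t = k := by
  induction w with
  | nil => simp at h
  | cons y w ih =>
    rw [occ_cons, occ_nil] at h
    by_cases e : b = y
    · subst e
      exact ⟨[], w, rfl, rfl, by simpa using h⟩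
    · rw [if_neg e] at h
      obtain ⟨u, t, h1, h2, h3⟩ := ih h
      exact ⟨y :: u, t, by rw [h1]; rfl, by rw [occ_cons, h2, if_neg e], h3⟩

lemma ident (w : List Let) (h : occ [b] w = 2) :
    2 * occ [a, b, c] w + occ [b, a, b] w * occ [b, c, b] w = occ [a, b] w * occ [b, c] w := by
  obtain ⟨u, t, rfl, h1, h2⟩ := split_b w 1 h
  obtain ⟨v, z, rfl, h3, h4⟩ := split_b t 0 h2
  simp [occ1, occ2, occ3, occ_cons, occ_nil, nob u h1, nob v h3, nob z h4]
  ring

def Inv (w w' : List Let) : Prop :=
  occ [b] w' = 2 ∧ occ [a, b] w' = occ [a, b] w ∧ occ [b, c] w' = occ [b, c] w ∧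
    occ [b, a, b] w' + occ [b, c, b] w ≤ occ [b, a, b] w + occ [b, c, b] w' + 2

lemma step_inv {w w' : List Let} (h : Step w w') (hb : occ [b] w = 2) : Inv w w' := by
  obtain ⟨x, y, y', z, hr, rfl, rfl⟩ := h
  unfold Inv
  rcases hr with hr | hr <;> cases hr
  · simp [occ1, occ2, occ3, occ_cons, occ_nil] at hb ⊢
    omega
  all_goals
    simp [occ1, occ_cons, occ_nil] at hb
  · rename_i m
    have h1 : occ [b] x = 0 := by omega
    have h2 : occ [b] m = 0 := by omega
    have h3 : occ [b] z = 0 := by omega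
    simp [occ1, occ2, occ3, occ_cons, occ_nil, nob x h1, nob m h2, nob z h3]
    omega
  · rename_i m
    have h1 : occ [b] x = 0 := by omega
    have h2 : occ [b] m = 0 := by omega
    have h3 : occ [b] z = 0 := by omega
    simp [occ1, occ2, occ3, occ_cons, occ_nil, nob x h1, nob m h2, nob z h3]
    omega
  · simp [occ1, occ2, occ3, occ_cons, occ_nil]
    omega
  · rename_i m
    have h1 : occ [b] x = 0 := by omega
    have h2 : occ [b] m = 0 := by omega
    have h3 : occ [b] z = 0 := by omega
    simp [occ1, occ2, occ3, occ_cons, occ_nil, nob x h1, nob m h2, nob z h3]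
    omega
  · rename_i m
    have h1 : occ [b] x = 0 := by omega
    have h2 : occ [b] m = 0 := by omega
    have h3 : occ [b] z = 0 := by omega
    simp [occ1, occ2, occ3, occ_cons, occ_nil, nob x h1, nob m h2, nob z h3]
    omega

lemma stepN_inv {n : ℕ} {w w' : List Let} (h : StepN n w w') (hb : occ [b] w = 2) :
    occ [b] w' = 2 ∧ occ [a, b] w' = occ [a, b] w ∧ occ [b, c] w' = occ [b, c] w ∧
      occ [b, a, b] w' + occ [b, c, b] w ≤ occ [b, a, b] w + occ [b, c, b] w' + 2 * n := by
  induction h with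
  | refl w => exact ⟨hb, rfl, rfl, by omega⟩
  | step h1 _ ih =>
    obtain ⟨a1, a2, a3, a4⟩ := step_inv h1 hb
    obtain ⟨b1, b2, b3, b4⟩ := ih a1
    exact ⟨b1, by omega, by omega, by omega⟩

lemma stepN_trans {n m : ℕ} {u v w : List Let} (h1 : StepN n u v) (h2 : StepN m v w) :
    StepN (m + n) u w := by
  induction h1 with
  | refl _ => exact h2
  | step h _ ih => exact StepN.step h (ih h2)

lemma reach_trans {u v w : List Let} (h1 : Reach u v) (h2 : Reach v w) : Reach u w := by
  obtain ⟨n, h1⟩ := h1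
  obtain ⟨m, h2⟩ := h2
  exact ⟨_, stepN_trans h1 h2⟩

lemma reach_step {u v : List Let} (h : Step u v) : Reach u v := ⟨1, StepN.step h (StepN.refl _)⟩

lemma reach_refl (u : List Let) : Reach u u := ⟨0, StepN.refl _⟩

lemma swap1 (p q : Let) (h : R [p, q] [q, p] ∨ R [q, p] [p, q]) (j : ℕ) : ∀ x z : List Let,
    Reach (x ++ p :: List.replicate j q ++ z) (x ++ List.replicate j q ++ p :: z) := by
  induction j with
  | zero => intro x z; simpa using reach_refl _
  | succ j ih =>
    intro x z
    refine reach_trans (reach_step ⟨x, [p, q], [q, p], List.replicate j q ++ z, h, ?_, rfl⟩) ?_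
    · simp [List.replicate_succ]
    · simpa [List.replicate_succ] using ih (x ++ [q]) z

lemma swap2 (p q : Let) (h : R [p, q] [q, p] ∨ R [q, p] [p, q]) (i j : ℕ) : ∀ x z : List Let,
    Reach (x ++ List.replicate i p ++ List.replicate j q ++ z)
      (x ++ List.replicate j q ++ List.replicate i p ++ z) := by
  induction i with
  | zero => intro x z; simpa using reach_refl _
  | succ i ih =>
    intro x z
    refine reach_trans ?_ (by
      simpa [List.replicate_succ] using swap1 p q h j x (List.replicate i p ++ z))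
    simpa [List.replicate_succ] using ih (x ++ [p]) z

lemma pull (p : Let) (h : ∀ x, R ([p, b] ++ x ++ [b, p]) ([b, p] ++ x ++ [p, b]) ∨
    R ([b, p] ++ x ++ [p, b]) ([p, b] ++ x ++ [b, p])) (m : ℕ) : ∀ x : List Let,
    Reach (List.replicate m p ++ b :: x ++ b :: List.replicate m p)
      (b :: List.replicate m p ++ x ++ List.replicate m p ++ [b]) ∧
    Reach (b :: List.replicate m p ++ x ++ List.replicate m p ++ [b])
      (List.replicate m p ++ b :: x ++ b :: List.replicate m p) := by
  induction m with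
  | zero => intro x; exact ⟨by simpa using reach_refl _, by simpa using reach_refl _⟩
  | succ m ih =>
    intro x
    obtain ⟨i1, i2⟩ := ih (p :: x ++ [p])
    have e1 : List.replicate (m + 1) p ++ b :: x ++ b :: List.replicate (m + 1) p =
        List.replicate m p ++ ([p, b] ++ x ++ [b, p]) ++ List.replicate m p := by
      rw [List.replicate_succ' (n := m)]
      nth_rewrite 2 [← List.replicate_succ' (n := m)]
      simp [List.replicate_succ]
    have e2 : List.replicate m p ++ b :: (p :: x ++ [p]) ++ b :: List.replicate m p =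
        List.replicate m p ++ ([b, p] ++ x ++ [p, b]) ++ List.replicate m p := by simp
    have e3 : b :: List.replicate (m + 1) p ++ x ++ List.replicate (m + 1) p ++ [b] =
        b :: List.replicate m p ++ (p :: x ++ [p]) ++ List.replicate m p ++ [b] := by
      rw [List.replicate_succ' (n := m)]
      nth_rewrite 2 [← List.replicate_succ' (n := m)]
      simp [List.replicate_succ]
    rw [e3]
    exact ⟨reach_trans (reach_step ⟨_, _, _, _, h x, e1, e2⟩) i1,
      reach_trans i2 (reach_step ⟨_, _, _, _, (h x).symm, e2, e1⟩)⟩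

def w0 (m : ℕ) : List Let :=
  List.replicate m a ++ b :: (List.replicate m c ++ [a, c] ++ List.replicate m c) ++
    b :: List.replicate m a

def w1 (m : ℕ) : List Let :=
  List.replicate m c ++ b :: (List.replicate m a ++ [a, c] ++ List.replicate m a) ++
    b :: List.replicate m c

lemma reach01 (m : ℕ) : Reach (w0 m) (w1 m) := by
  refine reach_trans (pull a (fun x => Or.inl (R.ab x)) m _).1
    (reach_trans ?_ (pull c (fun x => Or.inr (R.bc x)) m _).2)
  have s1 := swap2 a c (Or.inl R.ac) m m [b]
    ([a, c] ++ List.replicate m c ++ List.replicate m a ++ [b])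
  have s2 := swap2 c a (Or.inr R.ac) m m
    ([b] ++ List.replicate m c ++ List.replicate m a ++ [a, c]) [b]
  exact reach_trans (by simpa using s1) (by simpa using s2)

lemma occ_rep (p q : Let) (m : ℕ) : occ [p] (List.replicate m q) = if p = q then m else 0 := by
  induction m with
  | zero => simp
  | succ m ih => rw [List.replicate_succ, occ_cons, occ_nil, ih]; split_ifs <;> rfl

lemma vals (m : ℕ) : occ [b] (w0 m) = 2 ∧ occ [b, a, b] (w0 m) = 1 ∧
    occ [b, c, b] (w0 m) = 2 * m + 1 ∧ occ [b, a, b] (w1 m) = 2 * m + 1 ∧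
    occ [b, c, b] (w1 m) = 1 := by
  have h1 : occ [b] (List.replicate m a) = 0 := by simp [occ_rep]
  have h2 : occ [b] (List.replicate m c) = 0 := by simp [occ_rep]
  simp [w0, w1, occ1, occ2, occ3, occ_cons, occ_nil, nob _ h1, nob _ h2, occ_rep]
  omega

lemma dist_spec {u v : List Let} (h : Reach u v) : StepN (dist u v) u v := Nat.sInf_mem h

lemma eq_of_zero {u v : List Let} (h : StepN 0 u v) : u = v := by cases h; rfl

theorem result (N : ℕ) :
    ∃ n, N ≤ n ∧ ∃ w w', Irred w w' ∧ dist w w' = n ∧ ¬ Expressible n w w' := by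
  obtain ⟨p, hp1, hp⟩ := Nat.exists_infinite_primes (N + 3)
  obtain ⟨m, rfl⟩ : ∃ m, p = 2 * m + 1 := hp.eq_two_or_odd'.resolve_left (by omega)
  obtain ⟨v1, v2, v3, v4, v5⟩ := vals m
  have hK : ∀ w, PRel (w0 m) w → occ [b] w = 2 ∧
      ((occ [b, a, b] w = 1 ∧ occ [b, c, b] w = 2 * m + 1) ∨
        (occ [b, a, b] w = 2 * m + 1 ∧ occ [b, c, b] w = 1)) := by
    rintro w ⟨⟨n, h1⟩, h2⟩
    obtain ⟨a1, a2, a3, -⟩ := stepN_inv h1 v1
    have i1 := ident w a1
    have i2 := ident _ v1
    rw [a2, a3, ← h2, ← i2, v2, v3] at i1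
    have i3 : occ [b, a, b] w * occ [b, c, b] w = 2 * m + 1 := by omega
    refine ⟨a1, ?_⟩
    rcases (Nat.dvd_prime hp).1 ⟨_, i3.symm⟩ with h | h
    · left; rw [h] at i3; omega
    · right
      rw [h] at i3
      exact ⟨h, Nat.eq_of_mul_eq_mul_left (Nat.succ_pos (2 * m)) (i3.trans (mul_one _).symm)⟩
  have htr : ∀ u v, PRel (w0 m) u → PRel u v → PRel (w0 m) v :=
    fun u v h1 h2 => ⟨reach_trans h1.1 h2.1, h1.2.trans h2.2⟩
  have k1 : PRel (w0 m) (w1 m) := by
    obtain ⟨n, h1⟩ := reach01 m
    obtain ⟨a1, a2, a3, -⟩ := stepN_inv h1 v1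
    have i1 := ident _ a1
    have i2 := ident _ v1
    rw [a2, a3, ← i2, v2, v3, v4, v5] at i1
    exact ⟨⟨n, h1⟩, by omega⟩
  let D : Set ℕ := {n | ∃ w w', PRel (w0 m) w ∧ PRel (w0 m) w' ∧ occ [b, a, b] w = 1 ∧
    occ [b, a, b] w' = 2 * m + 1 ∧ StepN n w w'}
  have hD : D.Nonempty := by
    obtain ⟨n, h1⟩ := reach01 m
    exact ⟨n, _, _, ⟨reach_refl _, rfl⟩, k1, v2, v4, h1⟩
  obtain ⟨w, w', h1, h2, h3, h4, h5⟩ := Nat.sInf_mem hD
  have low : ∀ u v, PRel (w0 m) u → PRel u v → occ [b, a, b] u = 1 →
      occ [b, a, b] v = 2 * m + 1 → sInf D ≤ dist u v :=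
    fun u v a1 a2 a3 a4 => Nat.sInf_le ⟨u, v, a1, htr _ _ a1 a2, a3, a4, dist_spec a2.1⟩
  have h6 : PRel w w' := ⟨⟨_, h5⟩, h1.2.symm.trans h2.2⟩
  have hd : dist w w' = sInf D := le_antisymm (Nat.sInf_le h5) (low _ _ h1 h6 h3 h4)
  refine ⟨sInf D, ?_, w, w', ⟨?_, h6, ?_⟩, hd, ?_⟩
  · have a1 := hK w h1
    have a2 := hK w' h2
    have a3 := (stepN_inv h5 a1.1).2.2.2
    omega
  · rintro rfl
    omega
  · rintro ⟨u, a1, a2, a3, a4, a5⟩
    rcases (hK u (htr _ _ h1 a3)).2 with e | e
    · have := low u w' (htr _ _ h1 a3) a4 e.1 h4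
      have h0 : dist w u = 0 := by omega
      have := dist_spec a3.1
      rw [h0] at this
      exact a1 (eq_of_zero this).symm
    · have := low w u h1 a3 h3 e.1
      have h0 : dist u w' = 0 := by omega
      have := dist_spec a4.1
      rw [h0] at this
      exact a2 (eq_of_zero this)
  · intro hE
    have : PRel (w0 m) w' ∧ occ [b, a, b] w' = 1 := by
      clear h2 h4 h5 h6 hd
      induction hE with
      | refl => exact ⟨h1, h3⟩
      | tail _ hs ih =>
        refine ⟨htr _ _ ih.1 hs.1.2.1, ?_⟩
        rcases (hK _ (htr _ _ ih.1 hs.1.2.1)).2 with e | e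
        · exact e.1
        · have := low _ _ ih.1 hs.1.2.1 ih.2 e.1
          have := hs.2
          omega
    omega

end Pool.Agent.Results.MP_24e294_lc.Unbounded
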